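import Mathlib

/-!
# The equitable action of the quantum group on a q-Racah Leonard pair
-/

set_option autoImplicit false

namespace Pool.Agent.Results.MP_dc3d2a_al.EquitableAction

universe u v

open Matrix

section Defs

variable {K : Type u} [Field K]

/-- A square matrix is irreducible tridiagonal: entries off the three central diagonals vanish and
all entries directly above and directly below the main diagonal are nonzero. -/
def IsIrredTridiagonal {n : ℕ} (M : Matrix (Fin n) (Fin n) K) : Prop :=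
  (∀ i j : Fin n, (i : ℕ) + 1 < j ∨ (j : ℕ) + 1 < i → M i j = 0) ∧
    ∀ i j : Fin n, (i : ℕ) + 1 = j → M i j ≠ 0 ∧ M j i ≠ 0

/-- `M` is lower bidiagonal with diagonal `x 0, …, x d` and all subdiagonal entries `1`. -/
def IsLowerBidiagonal {d : ℕ} (x : ℕ → K) (M : Matrix (Fin (d + 1)) (Fin (d + 1)) K) : Prop :=
  ∀ i j : Fin (d + 1), M i j = if (i : ℕ) = j then x i else if (i : ℕ) = j + 1 then 1 else 0

/-- `M` is upper bidiagonal with diagonal `x 0, …, x d` and superdiagonal `y 1, …, y d`. -/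
def IsUpperBidiagonal {d : ℕ} (x y : ℕ → K) (M : Matrix (Fin (d + 1)) (Fin (d + 1)) K) : Prop :=
  ∀ i j : Fin (d + 1), M i j = if (i : ℕ) = j then x i else if (j : ℕ) = i + 1 then y j else 0

variable {V : Type v} [AddCommGroup V] [Module K V]

/-- `A, B` is a Leonard pair on the vector space `V` of dimension `d + 1`. -/
def IsLeonardPair (d : ℕ) (A B : Module.End K V) : Prop :=
  (∃ e : Module.Basis (Fin (d + 1)) K V, (LinearMap.toMatrix e e A).IsDiag ∧
      IsIrredTridiagonal (LinearMap.toMatrix e e B)) ∧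
    ∃ e : Module.Basis (Fin (d + 1)) K V, (LinearMap.toMatrix e e B).IsDiag ∧
      IsIrredTridiagonal (LinearMap.toMatrix e e A)

/-- The Leonard pair `A, B` has parameter array `(θ i, θ' i (0 ≤ i ≤ d); φ i, φ' i (1 ≤ i ≤ d))`
(in the problem: `θ_i, θ^*_i, φ_i (varphi), φ_i (phi)`). -/
def HasParameterArray (d : ℕ) (A B : Module.End K V) (θ θ' φ φ' : ℕ → K) : Prop :=
  (∃ e : Module.Basis (Fin (d + 1)) K V, IsLowerBidiagonal θ (LinearMap.toMatrix e e A) ∧
      IsUpperBidiagonal θ' φ (LinearMap.toMatrix e e B)) ∧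
    ∃ e : Module.Basis (Fin (d + 1)) K V,
      IsLowerBidiagonal (fun i => θ (d - i)) (LinearMap.toMatrix e e A) ∧
      IsUpperBidiagonal θ' φ' (LinearMap.toMatrix e e B)

/-- `λ_i(x) = x q^(2i-d) + x⁻¹ q^(d-2i)` -/
def lam (q : K) (d : ℕ) (x : K) (i : ℕ) : K :=
  x * q ^ (2 * (i : ℤ) - d) + x⁻¹ * q ^ ((d : ℤ) - 2 * i)

/-- `u_i = (q^(-i) - q^i) (q^(d-i+1) - q^(i-d-1))` -/
def uu (q : K) (d i : ℕ) : K :=
  (q ^ (-(i : ℤ)) - q ^ (i : ℤ)) * (q ^ ((d : ℤ) - i + 1) - q ^ ((i : ℤ) - d - 1))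

/-- `r_i(x) = q^(-i) - x q^(i-d-1)` -/
def rr (q : K) (d : ℕ) (x : K) (i : ℕ) : K := q ^ (-(i : ℤ)) - x * q ^ ((i : ℤ) - d - 1)

/-- `varphi_i = q^(d+1)/(ab) u_i r_i(abc) r_i(ab/c)` -/
def varphi (q : K) (d : ℕ) (a b c : K) (i : ℕ) : K :=
  q ^ (d + 1) / (a * b) * uu q d i * rr q d (a * b * c) i * rr q d (a * b / c) i

/-- `phi_i = a q^(d+1)/b u_i r_i(bc/a) r_i(b/(ac))` -/
def phi (q : K) (d : ℕ) (a b c : K) (i : ℕ) : K :=
  a * q ^ (d + 1) / b * uu q d i * rr q d (b * c / a) i * rr q d (b / (a * c)) i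

/-- The four generators `X, X⁻¹, Y, Z`. -/
inductive Gen : Type
  | X | Xi | Y | Z

/-- The defining relations of the equitable presentation. -/
inductive Rel (K : Type u) [Field K] (q : K) : FreeAlgebra K Gen → FreeAlgebra K Gen → Prop
  | mul_inv : Rel K q (FreeAlgebra.ι K Gen.X * FreeAlgebra.ι K Gen.Xi) 1
  | inv_mul : Rel K q (FreeAlgebra.ι K Gen.Xi * FreeAlgebra.ι K Gen.X) 1
  | xy : Rel K q (q • (FreeAlgebra.ι K Gen.X * FreeAlgebra.ι K Gen.Y) -
      q⁻¹ • (FreeAlgebra.ι K Gen.Y * FreeAlgebra.ι K Gen.X)) ((q - q⁻¹) • 1)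
  | yz : Rel K q (q • (FreeAlgebra.ι K Gen.Y * FreeAlgebra.ι K Gen.Z) -
      q⁻¹ • (FreeAlgebra.ι K Gen.Z * FreeAlgebra.ι K Gen.Y)) ((q - q⁻¹) • 1)
  | zx : Rel K q (q • (FreeAlgebra.ι K Gen.Z * FreeAlgebra.ι K Gen.X) -
      q⁻¹ • (FreeAlgebra.ι K Gen.X * FreeAlgebra.ι K Gen.Z)) ((q - q⁻¹) • 1)

/-- The algebra `U_q(sl_2)` in its equitable presentation. -/
abbrev Uq (K : Type u) [Field K] (q : K) : Type u := RingQuot (Rel K q)

/-- The generator `g` of `U_q(sl_2)`. -/
def gen (K : Type u) [Field K] (q : K) (g : Gen) : Uq K q :=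
  RingQuot.mkAlgHom K (Rel K q) (FreeAlgebra.ι K g)

/-- The `Uq K q`-module structure `ρ` on `V` is irreducible. -/
def IsIrreducibleAction {q : K} (ρ : Uq K q →ₐ[K] Module.End K V) : Prop :=
  Nontrivial V ∧ ∀ W : Submodule K V, (∀ x : Uq K q, ∀ w ∈ W, ρ x w ∈ W) → W = ⊥ ∨ W = ⊤

end Defs

/-! ### Leonard pairs are irreducible -/

section Irred

variable {K : Type u} [Field K] {V : Type v} [AddCommGroup V] [Module K V]

theorem tri_eigen {d : ℕ} {M : Matrix (Fin (d + 1)) (Fin (d + 1)) K} (hM : IsIrredTridiagonal M)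
    {t : K} {v : Fin (d + 1) → K} (hv : M *ᵥ v = t • v) (h0 : v 0 = 0) : v = 0 := by
  have key : ∀ n : ℕ, ∀ i : Fin (d + 1), (i : ℕ) ≤ n → v i = 0 := by
    intro n
    induction n with
    | zero =>
      intro i hi
      have : i = 0 := by ext; simpa using hi
      rw [this, h0]
    | succ n ih =>
      intro i hi
      rcases Nat.lt_or_ge (i : ℕ) (n + 1) with h | h
      · exact ih i (by omega)
      · have hi' : (i : ℕ) = n + 1 := by omega
        have hn : n < d + 1 := by have := i.2; omega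
        have e := congrFun hv ⟨n, hn⟩
        rw [Pi.smul_apply, ih ⟨n, hn⟩ le_rfl, smul_zero] at e
        simp only [Matrix.mulVec, dotProduct] at e
        rw [Finset.sum_eq_single i] at e
        · rcases mul_eq_zero.1 e with e | e
          · exact absurd e (hM.2 ⟨n, hn⟩ i (by simp [hi'])).1
          · exact e
        · intro j _ hj
          rcases Nat.lt_or_ge n (j : ℕ) with h1 | h1
          · have : (j : ℕ) ≠ n + 1 := fun h2 => hj (by ext; omega)
            rw [hM.1 ⟨n, hn⟩ j (Or.inl (by simp; omega)), zero_mul]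
          · rw [ih j h1, mul_zero]
        · intro h; exact absurd (Finset.mem_univ _) h
  funext i
  exact key i i le_rfl

/-- the diagonal entries of `B` in a basis making it diagonal are distinct if `B` is irreducible
tridiagonal in another basis -/
theorem diag_injective {d : ℕ} (B : Module.End K V) (f : Module.Basis (Fin (d + 1)) K V)
    (hf : (LinearMap.toMatrix f f B).IsDiag) (e : Module.Basis (Fin (d + 1)) K V)
    (he : IsIrredTridiagonal (LinearMap.toMatrix e e B)) :
    (∀ i, B (f i) = LinearMap.toMatrix f f B i i • f i) ∧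
    Function.Injective fun i => LinearMap.toMatrix f f B i i := by
  have h1 : ∀ i, B (f i) = LinearMap.toMatrix f f B i i • f i := by
    intro i
    apply f.repr.injective
    ext j
    rw [map_smul, Finsupp.smul_apply, f.repr_self]
    by_cases hij : j = i
    · subst hij
      rw [Finsupp.single_eq_same, smul_eq_mul, mul_one, LinearMap.toMatrix_apply]
    · rw [Finsupp.single_eq_of_ne (by tauto), smul_zero]
      have : LinearMap.toMatrix f f B j i = 0 := hf hij
      rw [LinearMap.toMatrix_apply] at this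
      exact this
  refine ⟨h1, fun i j hij => ?_⟩
  by_contra hne
  set t := LinearMap.toMatrix f f B i i with ht
  have hij' : LinearMap.toMatrix f f B j j = t := hij.symm
  have hvec : ∀ v : V, B v = t • v → e.repr v 0 = 0 → v = 0 := by
    intro v hv h0
    have : (fun k => e.repr v k) = 0 := by
      refine tri_eigen he (t := t) ?_ h0
      have h2 := LinearMap.toMatrix_mulVec_repr e e B v
      rw [hv, map_smul] at h2
      exact h2
    apply e.repr.injective
    ext k
    rw [map_zero]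
    exact congrFun this k
  have hi : e.repr (f i) 0 ≠ 0 := fun h => f.ne_zero i (hvec _ (h1 i) h)
  have h3 : e.repr (f j) 0 • f i - e.repr (f i) 0 • f j = 0 := by
    apply hvec
    · rw [map_sub, map_smul, map_smul, h1 i, h1 j, hij', ← ht, smul_sub, smul_comm t, smul_comm t]
    · simp only [map_sub, map_smul, Finsupp.sub_apply, Finsupp.smul_apply, smul_eq_mul]
      ring
  have h4 := congrArg (fun v => f.repr v j) h3
  simp only [map_sub, map_smul, Finsupp.sub_apply, Finsupp.smul_apply, smul_eq_mul, f.repr_self,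
    Finsupp.single_eq_same, map_zero, Finsupp.coe_zero, Pi.zero_apply] at h4
  rw [Finsupp.single_eq_of_ne (by tauto)] at h4
  apply hi
  linear_combination -h4

/-- a Leonard pair acts irreducibly -/
theorem leonard_irred {d : ℕ} {A B : Module.End K V} (h : IsLeonardPair d A B)
    (W : Submodule K V) (hA : ∀ w ∈ W, A w ∈ W) (hB : ∀ w ∈ W, B w ∈ W) : W = ⊥ ∨ W = ⊤ := by
  obtain ⟨⟨e, -, he⟩, ⟨f, hf, hf2⟩⟩ := h
  obtain ⟨h1, hinj⟩ := diag_injective B f hf e he
  set t : Fin (d + 1) → K := fun i => LinearMap.toMatrix f f B i i with ht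
  -- projections
  have hproj : ∀ w ∈ W, ∀ i, f.repr w i • f i ∈ W := by
    intro w hw i
    set p : Polynomial K := ∏ j ∈ Finset.univ.erase i, (Polynomial.X - Polynomial.C (t j)) with hp
    have hpw : ∀ p : Polynomial K, ∀ w ∈ W, Polynomial.aeval B p w ∈ W := by
      intro p
      induction p using Polynomial.induction_on' with
      | add p q hp hq =>
        intro w hw
        rw [map_add, LinearMap.add_apply]
        exact W.add_mem (hp w hw) (hq w hw)
      | monomial n c =>
        intro w hw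
        rw [Polynomial.aeval_monomial, Module.End.mul_apply, Module.algebraMap_end_apply]
        refine W.smul_mem _ ?_
        induction n with
        | zero => simpa using hw
        | succ n ih => rw [pow_succ', Module.End.mul_apply]; exact hB _ ih
    have heig : ∀ (p : Polynomial K) (k : Fin (d + 1)), Polynomial.aeval B p (f k) =
        p.eval (t k) • f k := by
      intro p k
      induction p using Polynomial.induction_on' with
      | add p q hp hq => rw [map_add, LinearMap.add_apply, hp, hq, Polynomial.eval_add, add_smul]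
      | monomial n c =>
        rw [Polynomial.aeval_monomial, Module.End.mul_apply, Module.algebraMap_end_apply,
          Polynomial.eval_monomial]
        have : (B ^ n) (f k) = t k ^ n • f k := by
          induction n with
          | zero => simp
          | succ n ih => rw [pow_succ', Module.End.mul_apply, ih, map_smul, h1 k, smul_smul,
              pow_succ]
        rw [this, smul_smul]
    have h2 : Polynomial.aeval B p w = p.eval (t i) • (f.repr w i • f i) := by
      conv_lhs => rw [← f.sum_repr w]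
      rw [map_sum, Finset.sum_eq_single i]
      · rw [map_smul, heig, smul_comm]
      · intro j _ hj
        rw [map_smul, heig, hp, Polynomial.eval_prod, Finset.prod_eq_zero (i := j)]
        · rw [zero_smul, smul_zero]
        · simp [hj]
        · simp
      · intro h; exact absurd (Finset.mem_univ _) h
    have h3 : p.eval (t i) ≠ 0 := by
      rw [hp, Polynomial.eval_prod, Finset.prod_ne_zero_iff]
      intro j hj
      rw [Polynomial.eval_sub, Polynomial.eval_X, Polynomial.eval_C, sub_ne_zero]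
      intro h4
      exact (Finset.ne_of_mem_erase hj) (hinj h4).symm
    have h4 := hpw p w hw
    rw [h2] at h4
    exact (W.smul_mem_iff h3).1 h4
  by_cases hW : W = ⊥
  · exact Or.inl hW
  right
  obtain ⟨w, hw, hw0⟩ := W.exists_mem_ne_zero_of_ne_bot hW
  obtain ⟨i, hi⟩ : ∃ i, f.repr w i ≠ 0 := by
    by_contra hcon
    push Not at hcon
    apply hw0
    apply f.repr.injective
    ext k
    rw [hcon k, map_zero, Finsupp.zero_apply]
  have hfi : f i ∈ W := (W.smul_mem_iff hi).1 (hproj w hw i)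
  have hstep : ∀ j k : Fin (d + 1), f j ∈ W → LinearMap.toMatrix f f A k j ≠ 0 → f k ∈ W := by
    intro j k hj hk
    have := hproj _ (hA _ hj) k
    rw [LinearMap.toMatrix_apply] at hk
    exact (W.smul_mem_iff hk).1 this
  have hup : ∀ n : ℕ, ∀ k : Fin (d + 1), (k : ℕ) = i + n → f k ∈ W := by
    intro n
    induction n with
    | zero => intro k hk; have : k = i := by ext; simpa using hk
              rw [this]; exact hfi
    | succ n ih =>
      intro k hk
      have hk' : (i : ℕ) + n < d + 1 := by have := k.2; omega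
      exact hstep ⟨i + n, hk'⟩ k (ih _ rfl) (hf2.2 ⟨i + n, hk'⟩ k (by simp [hk]; omega)).2
  have hdown : ∀ n : ℕ, ∀ k : Fin (d + 1), (k : ℕ) + n = i → f k ∈ W := by
    intro n
    induction n with
    | zero => intro k hk; have : k = i := by ext; simpa using hk
              rw [this]; exact hfi
    | succ n ih =>
      intro k hk
      have hk' : (k : ℕ) + 1 < d + 1 := by have := i.2; omega
      exact hstep ⟨k + 1, hk'⟩ k (ih _ (by simp; omega)) (hf2.2 k ⟨k + 1, hk'⟩ rfl).1
  have hall : ∀ k, f k ∈ W := by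
    intro k
    rcases le_total (i : ℕ) (k : ℕ) with h | h
    · exact hup (k - i) k (by omega)
    · exact hdown (i - k) k (by omega)
  rw [eq_top_iff, ← f.span_eq, Submodule.span_le]
  rintro _ ⟨k, rfl⟩
  exact hall k

end Irred

/-! ### the closed forms of the scalars -/

section Scalars

variable {K : Type u} [Field K] {q : K} (hq : q ≠ 0)

include hq

theorem lam_eq (d n : ℕ) (x : K) :
    lam q d x n = x * (q ^ n) ^ 2 / q ^ d + x⁻¹ * q ^ d / (q ^ n) ^ 2 := by
  have h1 : q ^ (2 * (n : ℤ) - d) = (q ^ n) ^ 2 / q ^ d := by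
    rw [zpow_sub₀ hq, mul_comm, _root_.zpow_mul]
    simp
  have h2 : q ^ ((d : ℤ) - 2 * n) = q ^ d / (q ^ n) ^ 2 := by
    rw [zpow_sub₀ hq, mul_comm 2, _root_.zpow_mul]
    simp
  rw [lam, h1, h2]
  ring

theorem lam_eq' (d n : ℕ) (hn : n ≤ d) (x : K) :
    lam q d x (d - n) = x * q ^ d / (q ^ n) ^ 2 + x⁻¹ * (q ^ n) ^ 2 / q ^ d := by
  have h3 : q ^ (d - n) = q ^ d / q ^ n := by
    rw [eq_div_iff (pow_ne_zero _ hq), ← pow_add, Nat.sub_add_cancel hn]
  rw [lam_eq hq, h3]
  have h4 : q ^ d ≠ 0 := pow_ne_zero _ hq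
  have h5 : q ^ n ≠ 0 := pow_ne_zero _ hq
  field_simp

theorem uu_eq (d n : ℕ) : uu q d n =
    ((q ^ n)⁻¹ - q ^ n) * (q ^ d * q / q ^ n - q ^ n / (q ^ d * q)) := by
  have h1 : q ^ (-(n : ℤ)) = (q ^ n)⁻¹ := by rw [_root_.zpow_neg, zpow_natCast]
  have h2 : q ^ ((d : ℤ) - n + 1) = q ^ d * q / q ^ n := by
    rw [zpow_add₀ hq, zpow_sub₀ hq, zpow_natCast, zpow_natCast, zpow_one]
    ring
  have h3 : q ^ ((n : ℤ) - d - 1) = q ^ n / (q ^ d * q) := by
    rw [zpow_sub₀ hq, zpow_sub₀ hq, zpow_natCast, zpow_natCast, zpow_one, div_div]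
  rw [uu, h1, h2, h3, zpow_natCast]

theorem rr_eq (d n : ℕ) (x : K) : rr q d x n = (q ^ n)⁻¹ - x * (q ^ n / (q ^ d * q)) := by
  have h1 : q ^ (-(n : ℤ)) = (q ^ n)⁻¹ := by rw [_root_.zpow_neg, zpow_natCast]
  have h3 : q ^ ((n : ℤ) - d - 1) = q ^ n / (q ^ d * q) := by
    rw [zpow_sub₀ hq, zpow_sub₀ hq, zpow_natCast, zpow_natCast, zpow_one, div_div]
  rw [rr, h1, h3]

/-- the denominator of the subdiagonal entries of `Y` -/
theorem rr_key {a b c : K} (ha : a ≠ 0) (hb : b ≠ 0) (hc : c ≠ 0) (d n : ℕ) :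
    a⁻¹ - c / b * (q ^ d * q / (q ^ n) ^ 2) =
      -(c / b * (q ^ d * q / q ^ n)) * rr q d (b / (a * c)) n := by
  rw [rr_eq hq]
  have h4 : q ^ d ≠ 0 := pow_ne_zero _ hq
  have h5 : q ^ n ≠ 0 := pow_ne_zero _ hq
  field_simp
  ring

end Scalars

/-! ### the family of vectors -/

section Family

variable {K : Type u} [Field K] {V : Type v} [AddCommGroup V] [Module K V]

/-- the basis, shifted by one and extended by zero -/
noncomputable def FF {d : ℕ} (e : Module.Basis (Fin (d + 1)) K V) : ℕ → V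
  | 0 => 0
  | n + 1 => if h : n < d + 1 then e ⟨n, h⟩ else 0

theorem FF_succ {d : ℕ} (e : Module.Basis (Fin (d + 1)) K V) (i : Fin (d + 1)) :
    FF e (i + 1) = e i := by simp only [FF, i.2, dif_pos]

theorem FF_big {d : ℕ} (e : Module.Basis (Fin (d + 1)) K V) (n : ℕ) (hn : d + 1 ≤ n) :
    FF e (n + 1) = 0 := by simp [FF, Nat.not_lt.2 hn]

theorem lower_act {d : ℕ} (e : Module.Basis (Fin (d + 1)) K V) {A : Module.End K V} {x : ℕ → K}
    (h : IsLowerBidiagonal x (LinearMap.toMatrix e e A)) (n : ℕ) :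
    A (FF e (n + 1)) = x n • FF e (n + 1) + FF e (n + 2) := by
  by_cases hn : n < d + 1
  · obtain ⟨i, rfl⟩ : ∃ i : Fin (d + 1), (i : ℕ) = n := ⟨⟨n, hn⟩, rfl⟩
    rw [FF_succ]
    apply e.repr.injective
    ext j
    have h1 := h j i
    rw [LinearMap.toMatrix_apply] at h1
    rw [h1, map_add, map_smul, Finsupp.add_apply, Finsupp.smul_apply, e.repr_self, smul_eq_mul]
    by_cases hij : j = i
    · subst hij
      rw [if_pos rfl, Finsupp.single_eq_same, mul_one]
      have : e.repr (FF e (j + 2)) j = 0 := by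
        by_cases h2 : (j : ℕ) + 1 < d + 1
        · have h3 : FF e ((j : ℕ) + 2) = e ⟨j + 1, h2⟩ := FF_succ e ⟨j + 1, h2⟩
          rw [h3, e.repr_self, Finsupp.single_eq_of_ne]
          intro h4
          have := congrArg Fin.val h4
          simp at this
        · rw [FF_big e _ (by omega), map_zero, Finsupp.zero_apply]
      rw [this, add_zero]
    · have hij' : (j : ℕ) ≠ i := fun h => hij (Fin.ext h)
      rw [if_neg hij', Finsupp.single_eq_of_ne (by tauto), mul_zero, zero_add]
      by_cases h2 : (i : ℕ) + 1 < d + 1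
      · have h3 : FF e ((i : ℕ) + 2) = e ⟨i + 1, h2⟩ := FF_succ e ⟨i + 1, h2⟩
        rw [h3, e.repr_self]
        by_cases h4 : (j : ℕ) = i + 1
        · have : j = ⟨i + 1, h2⟩ := Fin.ext h4
          rw [if_pos h4, this, Finsupp.single_eq_same]
        · rw [if_neg h4, Finsupp.single_eq_of_ne]
          intro h5
          exact h4 (congrArg Fin.val h5)
      · rw [FF_big e _ (by omega), map_zero, Finsupp.zero_apply, if_neg]
        have := j.2
        omega
  · rw [FF_big e _ (by omega), FF_big e _ (by omega)]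
    simp

theorem upper_act {d : ℕ} (e : Module.Basis (Fin (d + 1)) K V) {A : Module.End K V} {x y : ℕ → K}
    (h : IsUpperBidiagonal x y (LinearMap.toMatrix e e A)) (hy : y (d + 1) = 0) (n : ℕ) :
    A (FF e (n + 1)) = x n • FF e (n + 1) + y n • FF e n := by
  by_cases hn : n < d + 1
  · obtain ⟨i, rfl⟩ : ∃ i : Fin (d + 1), (i : ℕ) = n := ⟨⟨n, hn⟩, rfl⟩
    rw [FF_succ]
    apply e.repr.injective
    ext j
    have h1 := h j i
    rw [LinearMap.toMatrix_apply] at h1
    rw [h1, map_add, map_smul, map_smul, Finsupp.add_apply, Finsupp.smul_apply, Finsupp.smul_apply,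
      e.repr_self, smul_eq_mul, smul_eq_mul]
    have h6 : e.repr (FF e i) j = if (i : ℕ) = j + 1 then 1 else 0 := by
      rcases Nat.eq_zero_or_pos (i : ℕ) with h2 | h2
      · rw [h2]
        simp [FF]
      · have h7 : (i : ℕ) - 1 < d + 1 := by have := i.2; omega
        have h3 : FF e (i : ℕ) = e ⟨i - 1, h7⟩ := by
          have := FF_succ e ⟨i - 1, h7⟩
          rw [← this]
          congr 1
          simp
          omega
        rw [h3, e.repr_self]
        by_cases h4 : (i : ℕ) = j + 1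
        · have : j = ⟨i - 1, h7⟩ := Fin.ext (by simp; omega)
          rw [if_pos h4, this, Finsupp.single_eq_same]
        · rw [if_neg h4, Finsupp.single_eq_of_ne]
          intro h5
          have := congrArg Fin.val h5
          simp at this
          omega
    rw [h6]
    by_cases hij : j = i
    · subst hij
      rw [if_pos rfl, Finsupp.single_eq_same, mul_one, if_neg (by omega), mul_zero, add_zero]
    · have hij' : (j : ℕ) ≠ i := fun h => hij (Fin.ext h)
      rw [if_neg hij', Finsupp.single_eq_of_ne (by tauto), mul_zero, zero_add]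
      by_cases h4 : (i : ℕ) = j + 1
      · rw [if_pos h4, if_pos h4, mul_one]
      · rw [if_neg h4, if_neg h4, mul_zero]
  · rw [FF_big e _ (by omega), map_zero, smul_zero, zero_add]
    rcases Nat.lt_or_ge n (d + 2) with h1 | h1
    · have : n = d + 1 := by omega
      rw [this, hy, zero_smul]
    · obtain ⟨m, rfl⟩ : ∃ m, n = m + 1 := ⟨n - 1, by omega⟩
      rw [FF_big e _ (by omega), smul_zero]

/-- the superdiagonal entries of a Leonard pair in split form are nonzero -/
theorem split_ne_zero {d : ℕ} {A B : Module.End K V} (hAB : IsLeonardPair d A B)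
    (e : Module.Basis (Fin (d + 1)) K V) {x y z : ℕ → K}
    (hA : IsLowerBidiagonal x (LinearMap.toMatrix e e A))
    (hB : IsUpperBidiagonal y z (LinearMap.toMatrix e e B)) (n : ℕ) (h1 : 1 ≤ n) (h2 : n ≤ d) :
    z n ≠ 0 := by
  intro hz
  set W : Submodule K V := Submodule.span K (Set.range fun i : {i : Fin (d + 1) // n ≤ (i : ℕ)} =>
    e i.1) with hW
  have hmem : ∀ i : Fin (d + 1), n ≤ (i : ℕ) → e i ∈ W := fun i hi =>
    Submodule.subset_span ⟨⟨i, hi⟩, rfl⟩
  have hmemF : ∀ m : ℕ, n ≤ m → FF e (m + 1) ∈ W := by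
    intro m hm
    by_cases h : m < d + 1
    · have := FF_succ e ⟨m, h⟩
      simp only at this
      rw [this]
      exact hmem _ hm
    · rw [FF_big e _ (by omega)]
      exact W.zero_mem
  have hcoord : ∀ w ∈ W, e.repr w 0 = 0 := by
    intro w hw
    rw [hW] at hw
    induction hw using Submodule.span_induction with
    | mem w hw =>
      obtain ⟨⟨i, hi⟩, rfl⟩ := hw
      simp only
      rw [e.repr_self, Finsupp.single_eq_of_ne]
      rintro rfl
      simp at hi
      omega
    | zero => simp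
    | add x y _ _ hx hy => rw [map_add, Finsupp.add_apply, hx, hy, add_zero]
    | smul c x _ hx => rw [map_smul, Finsupp.smul_apply, hx, smul_zero]
  have hinv : ∀ C : Module.End K V, (∀ i : Fin (d + 1), n ≤ (i : ℕ) → C (e i) ∈ W) →
      ∀ w ∈ W, C w ∈ W := by
    intro C hC w hw
    rw [hW] at hw
    induction hw using Submodule.span_induction with
    | mem w hw =>
      obtain ⟨⟨i, hi⟩, rfl⟩ := hw
      exact hC i hi
    | zero => rw [map_zero]; exact W.zero_mem
    | add x y _ _ hx hy => rw [map_add]; exact W.add_mem hx hy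
    | smul c x _ hx => rw [map_smul]; exact W.smul_mem _ hx
  have hr := leonard_irred hAB W
    (hinv A fun i hi => by
      rw [← FF_succ, lower_act e hA]
      exact W.add_mem (W.smul_mem _ (hmemF _ hi)) (hmemF _ (by omega)))
    (hinv B fun i hi => by
      -- use the entries directly, as `z (d+1)` is arbitrary here
      have hBi : B (e i) = y i • e i + z i • FF e i := by
        have hB' : IsUpperBidiagonal y (fun k => if k = d + 1 then 0 else z k)
            (LinearMap.toMatrix e e B) := by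
          intro j k
          have := hB j k
          rw [this]
          have hk : (k : ℕ) ≠ d + 1 := by have := k.2; omega
          simp [hk]
        have h3 := upper_act e hB' (by simp) (i : ℕ)
        rw [FF_succ] at h3
        have hk : (i : ℕ) ≠ d + 1 := by have := i.2; omega
        simpa [hk] using h3
      rw [hBi]
      refine W.add_mem (W.smul_mem _ (hmem i hi)) ?_
      rcases Nat.lt_or_ge n (i : ℕ) with h4 | h4
      · obtain ⟨m, hm⟩ : ∃ m, (i : ℕ) = m + 1 := ⟨i - 1, by omega⟩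
        refine W.smul_mem _ ?_
        rw [hm]
        exact hmemF m (by omega)
      · have : (i : ℕ) = n := by omega
        rw [this, hz, zero_smul]
        exact W.zero_mem)
  rcases hr with hr | hr
  · have := hmem ⟨n, by omega⟩ le_rfl
    rw [hr, Submodule.mem_bot] at this
    exact e.ne_zero _ this
  · have h5 := hcoord (e 0) (by rw [hr]; trivial)
    rw [e.repr_self, Finsupp.single_eq_same] at h5
    exact one_ne_zero h5

theorem FF_ext {d : ℕ} (e : Module.Basis (Fin (d + 1)) K V) {A B : Module.End K V}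
    (h : ∀ n : ℕ, n ≤ d → A (FF e (n + 1)) = B (FF e (n + 1))) : A = B := by
  refine e.ext fun i => ?_
  have := h i (by have := i.2; omega)
  rwa [FF_succ] at this

end Family

/-! ### the operators -/

section Main

variable {K : Type u} [Field K] {V : Type v} [AddCommGroup V] [Module K V]

/-- the operator with `e i ↦ x i • e i + y i • e (i + 1)` -/
noncomputable def lowOp {d : ℕ} (e : Module.Basis (Fin (d + 1)) K V) (x y : ℕ → K) :
    Module.End K V := e.constr K fun i => x i • e i + y i • FF e (i + 2)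

/-- the operator with `e i ↦ x i • e i + y i • e (i - 1)` -/
noncomputable def upOp {d : ℕ} (e : Module.Basis (Fin (d + 1)) K V) (x y : ℕ → K) :
    Module.End K V := e.constr K fun i => x i • e i + y i • FF e i

theorem lowOp_apply {d : ℕ} (e : Module.Basis (Fin (d + 1)) K V) (x y : ℕ → K) (n : ℕ) :
    lowOp e x y (FF e (n + 1)) = x n • FF e (n + 1) + y n • FF e (n + 2) := by
  by_cases hn : n < d + 1
  · obtain ⟨i, rfl⟩ : ∃ i : Fin (d + 1), (i : ℕ) = n := ⟨⟨n, hn⟩, rfl⟩
    rw [FF_succ, lowOp, Module.Basis.constr_basis]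
  · rw [FF_big e _ (by omega), FF_big e _ (by omega)]
    simp

theorem upOp_apply {d : ℕ} (e : Module.Basis (Fin (d + 1)) K V) (x y : ℕ → K) (hy : y (d + 1) = 0)
    (n : ℕ) : upOp e x y (FF e (n + 1)) = x n • FF e (n + 1) + y n • FF e n := by
  by_cases hn : n < d + 1
  · obtain ⟨i, rfl⟩ : ∃ i : Fin (d + 1), (i : ℕ) = n := ⟨⟨n, hn⟩, rfl⟩
    rw [FF_succ, upOp, Module.Basis.constr_basis]
  · rw [FF_big e _ (by omega), map_zero, smul_zero, zero_add]
    rcases Nat.lt_or_ge n (d + 2) with h1 | h1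
    · have : n = d + 1 := by omega
      rw [this, hy, zero_smul]
    · obtain ⟨m, rfl⟩ : ∃ m, n = m + 1 := ⟨n - 1, by omega⟩
      rw [FF_big e _ (by omega), smul_zero]

/-- **Theorem.** Let `a, b, c, q ∈ K` be nonzero with `q⁴ ≠ 1` and let `A, B` be a Leonard pair on
`V` (of dimension `d + 1`) with the parameter array of the problem, and let `C` be the map
`A^ε`. Then `V` carries an irreducible `U_q(sl_2)`-module structure with the three identities. -/
theorem result (a b c q : K) (ha : a ≠ 0) (hb : b ≠ 0) (hc : c ≠ 0) (hq : q ≠ 0) (hq4 : q ^ 4 ≠ 1)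
    (d : ℕ) (A B C : Module.End K V) (hAB : IsLeonardPair d A B)
    (hpar : HasParameterArray d A B (lam q d a) (lam q d b) (varphi q d a b c) (phi q d a b c))
    (hC : (q ^ 2 - (q ^ 2)⁻¹) • C = q⁻¹ • (A * B) - q • (B * A) +
      ((q - q⁻¹) * ((a + a⁻¹) * (b + b⁻¹) + (c + c⁻¹) * (q ^ (d + 1) + (q ^ (d + 1))⁻¹))) •
        (1 : Module.End K V)) :
    ∃ ρ : Uq K q →ₐ[K] Module.End K V, IsIrreducibleAction ρ ∧
      A = a • ρ (gen K q Gen.X) + a⁻¹ • ρ (gen K q Gen.Y) +
        (c / b / (q - q⁻¹)) • (ρ (gen K q Gen.X) * ρ (gen K q Gen.Y) -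
          ρ (gen K q Gen.Y) * ρ (gen K q Gen.X)) ∧
      B = b • ρ (gen K q Gen.Z) + b⁻¹ • ρ (gen K q Gen.X) +
        (a / c / (q - q⁻¹)) • (ρ (gen K q Gen.Z) * ρ (gen K q Gen.X) -
          ρ (gen K q Gen.X) * ρ (gen K q Gen.Z)) ∧
      C = c • ρ (gen K q Gen.Y) + c⁻¹ • ρ (gen K q Gen.Z) +
        (b / a / (q - q⁻¹)) • (ρ (gen K q Gen.Y) * ρ (gen K q Gen.Z) -
          ρ (gen K q Gen.Z) * ρ (gen K q Gen.Y)) := by
  obtain ⟨-, e, hA, hB⟩ := hpar
  have hphi : ∀ n, 1 ≤ n → n ≤ d → phi q d a b c n ≠ 0 := fun n h1 h2 =>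
    split_ne_zero hAB e hA hB n h1 h2
  -- scalars
  have hD0 : q ^ d ≠ 0 := pow_ne_zero _ hq
  have hx0 : ∀ n : ℕ, q ^ n ≠ 0 := fun n => pow_ne_zero _ hq
  have hqq : q - q⁻¹ ≠ 0 := by
    intro h
    apply hq4
    have h1 : q * q = 1 := by
      have h2 : q = q⁻¹ := sub_eq_zero.1 h
      nth_rewrite 1 [h2]
      exact inv_mul_cancel₀ hq
    calc q ^ 4 = (q * q) * (q * q) := by ring
      _ = 1 := by rw [h1, one_mul]
  have hqq2 : q ^ 2 - (q ^ 2)⁻¹ ≠ 0 := by
    intro h
    apply hq4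
    have h2 : q ^ 2 = (q ^ 2)⁻¹ := sub_eq_zero.1 h
    calc q ^ 4 = q ^ 2 * q ^ 2 := by ring
      _ = (q ^ 2)⁻¹ * q ^ 2 := by rw [← h2]
      _ = 1 := inv_mul_cancel₀ (pow_ne_zero _ hq)
  set D : K := q ^ d with hD
  set k : ℕ → K := fun n => a⁻¹ - c / b * (D * q / (q ^ n) ^ 2) with hk
  set s : ℕ → K := fun n => (1 - (q ^ n) ^ 2) * (1 - (q ^ n) ^ 2 / (D * q) ^ 2) with hs
  have hk0 : ∀ n, 1 ≤ n → n ≤ d → k n ≠ 0 := by
    intro n h1 h2 h3
    have h4 := rr_key hq ha hb hc d n
    rw [← hD] at h4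
    rw [hk] at h3
    simp only at h3
    rw [h4] at h3
    apply hphi n h1 h2
    have h5 : -(c / b * (D * q / q ^ n)) ≠ 0 := neg_ne_zero.2
      (mul_ne_zero (div_ne_zero hc hb) (div_ne_zero (mul_ne_zero hD0 hq) (hx0 n)))
    rw [phi, (mul_eq_zero.1 h3).resolve_left h5, mul_zero]
  have hs0 : s 0 = 0 := by simp [hs]
  have hsd : s (d + 1) = 0 := by
    have h1 : q ^ (d + 1) = D * q := pow_succ q d
    simp only [hs, h1]
    rw [div_self (pow_ne_zero 2 (mul_ne_zero hD0 hq)), sub_self, mul_zero]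
  have hphi_eq : ∀ n, phi q d a b c n = s n * k n * (b - a / c * (D * q / (q ^ n) ^ 2)) := by
    intro n
    rw [phi, uu_eq hq, rr_eq hq, rr_eq hq]
    simp only [hs, hk, ← hD]
    have := hx0 n
    field_simp
    ring
  have hphi0 : phi q d a b c 0 = 0 := by rw [hphi_eq, hs0, zero_mul, zero_mul]
  have hphid : phi q d a b c (d + 1) = 0 := by rw [hphi_eq, hsd, zero_mul, zero_mul]
  have hxs : ∀ n : ℕ, q ^ (n + 1) = q ^ n * q := fun n => pow_succ q n
  -- the operators
  set F : ℕ → V := FF e with hF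
  have hF0 : F 0 = 0 := rfl
  have hFd : F (d + 2) = 0 := FF_big e (d + 1) le_rfl
  set X : Module.End K V := lowOp e (fun n => D / (q ^ n) ^ 2) (fun _ => 0) with hX
  set Xi : Module.End K V := lowOp e (fun n => (q ^ n) ^ 2 / D) (fun _ => 0) with hXi
  set Y : Module.End K V := lowOp e (fun n => (q ^ n) ^ 2 / D) (fun n => (k (n + 1))⁻¹) with hY
  set Z : Module.End K V := upOp e (fun n => (q ^ n) ^ 2 / D) (fun n => s n * k n) with hZ
  have aX : ∀ n, X (F n) = (D * q ^ 2 / (q ^ n) ^ 2) • F n := by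
    intro n
    rcases n with _ | n
    · rw [hF0, map_zero, smul_zero]
    · rw [hX, hF, lowOp_apply, zero_smul, add_zero]
      congr 1
      have := hx0 n
      rw [hxs n]
      field_simp
  have aXi : ∀ n, Xi (F n) = ((q ^ n) ^ 2 / (D * q ^ 2)) • F n := by
    intro n
    rcases n with _ | n
    · rw [hF0, map_zero, smul_zero]
    · rw [hXi, hF, lowOp_apply, zero_smul, add_zero]
      congr 1
      have := hx0 n
      rw [hxs n]
      field_simp
  have aY : ∀ n, Y (F (n + 1)) = ((q ^ n) ^ 2 / D) • F (n + 1) + (k (n + 1))⁻¹ • F (n + 2) :=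
    fun n => lowOp_apply e _ _ n
  have aZ : ∀ n, Z (F (n + 1)) = ((q ^ n) ^ 2 / D) • F (n + 1) + (s n * k n) • F n :=
    fun n => upOp_apply e _ _ (by rw [hsd, zero_mul]) n
  have aA : ∀ n, n ≤ d → A (F (n + 1)) = (a * D / (q ^ n) ^ 2 + a⁻¹ * (q ^ n) ^ 2 / D) • F (n + 1) +
      F (n + 2) := by
    intro n hn
    have := lower_act e hA n
    rw [lam_eq' hq d n hn] at this
    exact this
  have aB : ∀ n, B (F (n + 1)) = (b * (q ^ n) ^ 2 / D + b⁻¹ * D / (q ^ n) ^ 2) • F (n + 1) +
      phi q d a b c n • F n := by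
    intro n
    have := upper_act e hB hphid n
    rw [lam_eq hq d n] at this
    exact this
  -- composites
  have aZY : ∀ n, n ≤ d → (k (n + 1))⁻¹ • Z (F (n + 2)) =
      ((k (n + 1))⁻¹ * ((q ^ (n + 1)) ^ 2 / D)) • F (n + 2) + s (n + 1) • F (n + 1) := by
    intro n hn
    rcases Nat.lt_or_ge n d with h | h
    · rw [aZ (n + 1), smul_add, smul_smul, smul_smul]
      congr 2
      have := hk0 (n + 1) (by omega) (by omega)
      field_simp
    · have : n = d := by omega
      rw [this, hFd, hsd, map_zero, smul_zero, smul_zero, zero_smul, add_zero]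
  have aYZ : ∀ n, n ≤ d → (s n * k n) • Y (F n) =
      (s n * k n * ((q ^ n) ^ 2 / (q ^ 2 * D))) • F n + s n • F (n + 1) := by
    intro n hn
    rcases n with _ | n
    · rw [hF0, hs0, map_zero, smul_zero, smul_zero, zero_smul, add_zero]
    · rw [aY n, smul_add, smul_smul, smul_smul]
      have := hk0 (n + 1) (by omega) (by omega)
      congr 2
      · have := hx0 n
        rw [hxs n]
        field_simp
      · field_simp
  have aAB : ∀ n, n ≤ d → phi q d a b c n • A (F n) =
      (phi q d a b c n * (a * D * q ^ 2 / (q ^ n) ^ 2 + a⁻¹ * (q ^ n) ^ 2 / (q ^ 2 * D))) • F n +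
        phi q d a b c n • F (n + 1) := by
    intro n hn
    rcases n with _ | n
    · rw [hF0, hphi0, map_zero, smul_zero, smul_zero, zero_smul, add_zero]
    · rw [aA n (by omega), smul_add, smul_smul]
      congr 3
      have := hx0 n
      rw [hxs n]
      field_simp
  -- relations
  have r1 : X * Xi = 1 := by
    refine FF_ext e fun n hn => ?_
    rw [Module.End.mul_apply, Module.End.one_apply, ← hF, aXi, map_smul, aX, smul_smul]
    have := hx0 (n + 1)
    rw [show (q ^ (n + 1)) ^ 2 / (D * q ^ 2) * (D * q ^ 2 / (q ^ (n + 1)) ^ 2) = 1 by field_simp,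
      one_smul]
  have r2 : Xi * X = 1 := by
    refine FF_ext e fun n hn => ?_
    rw [Module.End.mul_apply, Module.End.one_apply, ← hF, aX, map_smul, aXi, smul_smul]
    have := hx0 (n + 1)
    rw [show D * q ^ 2 / (q ^ (n + 1)) ^ 2 * ((q ^ (n + 1)) ^ 2 / (D * q ^ 2)) = 1 by field_simp,
      one_smul]
  have cXY : ∀ n, X (Y (F (n + 1))) = F (n + 1) +
      ((k (n + 1))⁻¹ * (D / (q ^ 2 * (q ^ n) ^ 2))) • F (n + 2) := by
    intro n
    rw [aY, map_add, map_smul, map_smul, aX, aX, smul_smul, smul_smul]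
    have := hx0 n
    congr 1
    · rw [hxs n, show (q ^ n) ^ 2 / D * (D * q ^ 2 / (q ^ n * q) ^ 2) = 1 by field_simp,
        one_smul]
    · congr 2
      rw [hxs (n + 1), hxs n]
      field_simp
  have cYX : ∀ n, Y (X (F (n + 1))) = F (n + 1) +
      ((k (n + 1))⁻¹ * (D / (q ^ n) ^ 2)) • F (n + 2) := by
    intro n
    rw [aX, map_smul, aY, smul_add, smul_smul, smul_smul]
    have := hx0 n
    congr 1
    · rw [hxs n, show (D * q ^ 2 / (q ^ n * q) ^ 2) * ((q ^ n) ^ 2 / D) = 1 by field_simp,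
        one_smul]
    · congr 1
      rw [hxs n]
      field_simp
  have cXZ : ∀ n, X (Z (F (n + 1))) = F (n + 1) +
      (s n * k n * (D * q ^ 2 / (q ^ n) ^ 2)) • F n := by
    intro n
    rw [aZ, map_add, map_smul, map_smul, aX, aX, smul_smul, smul_smul]
    have := hx0 n
    congr 1
    rw [hxs n, show (q ^ n) ^ 2 / D * (D * q ^ 2 / (q ^ n * q) ^ 2) = 1 by field_simp,
        one_smul]
  have cZX : ∀ n, Z (X (F (n + 1))) = F (n + 1) +
      (s n * k n * (D / (q ^ n) ^ 2)) • F n := by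
    intro n
    rw [aX, map_smul, aZ, smul_add, smul_smul, smul_smul]
    have := hx0 n
    congr 1
    · rw [hxs n, show (D * q ^ 2 / (q ^ n * q) ^ 2) * ((q ^ n) ^ 2 / D) = 1 by field_simp,
        one_smul]
    · congr 1
      rw [hxs n]
      field_simp
  have cYZ : ∀ n, n ≤ d → Y (Z (F (n + 1))) = (((q ^ n) ^ 2 / D) ^ 2 + s n) • F (n + 1) +
      ((q ^ n) ^ 2 / D * (k (n + 1))⁻¹) • F (n + 2) +
      (s n * k n * ((q ^ n) ^ 2 / (q ^ 2 * D))) • F n := by
    intro n hn
    rw [aZ, map_add, map_smul, map_smul, aY, aYZ n hn]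
    module
  have cZY : ∀ n, n ≤ d → Z (Y (F (n + 1))) = (((q ^ n) ^ 2 / D) ^ 2 + s (n + 1)) • F (n + 1) +
      ((k (n + 1))⁻¹ * ((q ^ (n + 1)) ^ 2 / D)) • F (n + 2) +
      ((q ^ n) ^ 2 / D * (s n * k n)) • F n := by
    intro n hn
    rw [aY, map_add, map_smul, map_smul, aZ, aZY n hn]
    module
  have cAB : ∀ n, n ≤ d → A (B (F (n + 1))) =
      ((b * (q ^ n) ^ 2 / D + b⁻¹ * D / (q ^ n) ^ 2) *
        (a * D / (q ^ n) ^ 2 + a⁻¹ * (q ^ n) ^ 2 / D) + phi q d a b c n) • F (n + 1) +
      (b * (q ^ n) ^ 2 / D + b⁻¹ * D / (q ^ n) ^ 2) • F (n + 2) +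
      (phi q d a b c n * (a * D * q ^ 2 / (q ^ n) ^ 2 + a⁻¹ * (q ^ n) ^ 2 / (q ^ 2 * D))) • F n := by
    intro n hn
    rw [aB, map_add, map_smul, map_smul, aA n hn, aAB n hn]
    module
  have cBA : ∀ n, n ≤ d → B (A (F (n + 1))) =
      ((a * D / (q ^ n) ^ 2 + a⁻¹ * (q ^ n) ^ 2 / D) *
        (b * (q ^ n) ^ 2 / D + b⁻¹ * D / (q ^ n) ^ 2) + phi q d a b c (n + 1)) • F (n + 1) +
      (b * (q ^ (n + 1)) ^ 2 / D + b⁻¹ * D / (q ^ (n + 1)) ^ 2) • F (n + 2) +
      ((a * D / (q ^ n) ^ 2 + a⁻¹ * (q ^ n) ^ 2 / D) * phi q d a b c n) • F n := by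
    intro n hn
    rw [aA n hn, map_add, map_smul, aB, aB (n + 1)]
    module
  have r3 : q • (X * Y) - q⁻¹ • (Y * X) = (q - q⁻¹) • 1 := by
    refine FF_ext e fun n hn => ?_
    simp only [LinearMap.sub_apply, LinearMap.smul_apply, Module.End.mul_apply,
      Module.End.one_apply, ← hF]
    rw [cXY, cYX]
    match_scalars
    · ring
    · have := hx0 n
      field_simp
      ring
  have r4 : q • (Y * Z) - q⁻¹ • (Z * Y) = (q - q⁻¹) • 1 := by
    refine FF_ext e fun n hn => ?_
    simp only [LinearMap.sub_apply, LinearMap.smul_apply, Module.End.mul_apply,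
      Module.End.one_apply, ← hF]
    rw [cYZ n hn, cZY n hn]
    match_scalars
    · have := hx0 n
      simp only [hs, hxs n]
      field_simp
      ring
    · have := hx0 n
      rw [hxs n]
      field_simp
      ring
    · have := hx0 n
      field_simp
      ring
  have r5 : q • (Z * X) - q⁻¹ • (X * Z) = (q - q⁻¹) • 1 := by
    refine FF_ext e fun n hn => ?_
    simp only [LinearMap.sub_apply, LinearMap.smul_apply, Module.End.mul_apply,
      Module.End.one_apply, ← hF]
    rw [cZX, cXZ]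
    match_scalars
    · ring
    · have := hx0 n
      field_simp
      ring
  -- the three identities
  have hdiv : ∀ t w : K, t / (q - q⁻¹) * (w * (q - q⁻¹)) = t * w := by
    intro t w
    rw [div_mul_eq_mul_div, ← mul_assoc, mul_div_assoc, div_self hqq, mul_one]
  have eA : A = a • X + a⁻¹ • Y + (c / b / (q - q⁻¹)) • (X * Y - Y * X) := by
    refine FF_ext e fun n hn => ?_
    simp only [LinearMap.sub_apply, LinearMap.add_apply, LinearMap.smul_apply,
      Module.End.mul_apply, ← hF]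
    rw [cXY, cYX, aA n hn, aX, aY]
    have hn0 := hx0 n
    have h1 : a * D / (q ^ n) ^ 2 + a⁻¹ * (q ^ n) ^ 2 / D =
        a * (D * q ^ 2 / (q ^ (n + 1)) ^ 2) + a⁻¹ * ((q ^ n) ^ 2 / D) := by
      rw [hxs n]
      field_simp
    rcases Nat.lt_or_ge n d with h | h
    · have hk1 := hk0 (n + 1) (by omega) (by omega)
      have h2 : a⁻¹ * (k (n + 1))⁻¹ + c / b / (q - q⁻¹) * ((k (n + 1))⁻¹ *
          (D / (q ^ 2 * (q ^ n) ^ 2)) - (k (n + 1))⁻¹ * (D / (q ^ n) ^ 2)) = 1 := by
        have h3 : (k (n + 1))⁻¹ * (D / (q ^ 2 * (q ^ n) ^ 2)) - (k (n + 1))⁻¹ * (D / (q ^ n) ^ 2) =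
            -((k (n + 1))⁻¹ * (D / (q * (q ^ n) ^ 2))) * (q - q⁻¹) := by
          field_simp
          ring
        rw [h3, hdiv]
        have h4 : k (n + 1) = a⁻¹ - c / b * (D / (q * (q ^ n) ^ 2)) := by
          simp only [hk]
          rw [hxs n]
          congr 2
          field_simp
        have h5 : a⁻¹ * (k (n + 1))⁻¹ + c / b * -((k (n + 1))⁻¹ * (D / (q * (q ^ n) ^ 2))) =
            (k (n + 1))⁻¹ * (a⁻¹ - c / b * (D / (q * (q ^ n) ^ 2))) := by ring
        rw [h5, ← h4, inv_mul_cancel₀ hk1]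
      rw [h1]
      nth_rewrite 1 [← one_smul K (F (n + 2))]
      rw [← h2]
      module
    · have h3 : F (n + 2) = 0 := by rw [show n = d by omega, hFd]
      rw [h1, h3]
      module
  have eB : B = b • Z + b⁻¹ • X + (a / c / (q - q⁻¹)) • (Z * X - X * Z) := by
    refine FF_ext e fun n hn => ?_
    simp only [LinearMap.sub_apply, LinearMap.add_apply, LinearMap.smul_apply,
      Module.End.mul_apply, ← hF]
    rw [cXZ, cZX, aB n, aX, aZ]
    have hn0 := hx0 n
    have h1 : b * (q ^ n) ^ 2 / D + b⁻¹ * D / (q ^ n) ^ 2 =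
        b * ((q ^ n) ^ 2 / D) + b⁻¹ * (D * q ^ 2 / (q ^ (n + 1)) ^ 2) := by
      rw [hxs n]
      field_simp
    have h2 : phi q d a b c n = b * (s n * k n) + a / c / (q - q⁻¹) *
        (s n * k n * (D / (q ^ n) ^ 2) - s n * k n * (D * q ^ 2 / (q ^ n) ^ 2)) := by
      have h3 : s n * k n * (D / (q ^ n) ^ 2) - s n * k n * (D * q ^ 2 / (q ^ n) ^ 2) =
          -(s n * k n * (D * q / (q ^ n) ^ 2)) * (q - q⁻¹) := by
        field_simp
        ring
      rw [h3, hdiv, hphi_eq]
      ring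
    rw [h1, h2]
    module
  have eC : C = c • Y + c⁻¹ • Z + (b / a / (q - q⁻¹)) • (Y * Z - Z * Y) := by
    have hfac : (q ^ 2 - (q ^ 2)⁻¹) * (b / a / (q - q⁻¹)) = b / a * (q + q⁻¹) := by
      have h1 : q ^ 2 - (q ^ 2)⁻¹ = (q + q⁻¹) * (q - q⁻¹) := by
        field_simp
        ring
      rw [h1, mul_comm, hdiv]
    have h0 : (q ^ 2 - (q ^ 2)⁻¹) • C =
        (q ^ 2 - (q ^ 2)⁻¹) • (c • Y + c⁻¹ • Z + (b / a / (q - q⁻¹)) • (Y * Z - Z * Y)) := by
      rw [hC, smul_add _ (c • Y + c⁻¹ • Z), smul_smul, hfac]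
      refine FF_ext e fun n hn => ?_
      simp only [LinearMap.sub_apply, LinearMap.add_apply, LinearMap.smul_apply,
        Module.End.mul_apply, Module.End.one_apply, ← hF]
      rw [cYZ n hn, cZY n hn, cAB n hn, cBA n hn, aY, aZ]
      have hn0 := hx0 n
      have g1 : q⁻¹ * ((b * (q ^ n) ^ 2 / D + b⁻¹ * D / (q ^ n) ^ 2) *
          (a * D / (q ^ n) ^ 2 + a⁻¹ * (q ^ n) ^ 2 / D) + phi q d a b c n) -
          q * ((a * D / (q ^ n) ^ 2 + a⁻¹ * (q ^ n) ^ 2 / D) *
          (b * (q ^ n) ^ 2 / D + b⁻¹ * D / (q ^ n) ^ 2) + phi q d a b c (n + 1)) +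
          (q - q⁻¹) * ((a + a⁻¹) * (b + b⁻¹) + (c + c⁻¹) * (q ^ (d + 1) + (q ^ (d + 1))⁻¹)) =
          (q ^ 2 - (q ^ 2)⁻¹) * (c * ((q ^ n) ^ 2 / D) + c⁻¹ * ((q ^ n) ^ 2 / D)) +
          b / a * (q + q⁻¹) * ((((q ^ n) ^ 2 / D) ^ 2 + s n) - (((q ^ n) ^ 2 / D) ^ 2 + s (n + 1)))
          := by
        rw [hphi_eq, hphi_eq, hxs d, ← hD]
        simp only [hs, hk, hxs n]
        field_simp
        ring
      have g2 : q⁻¹ * (phi q d a b c n * (a * D * q ^ 2 / (q ^ n) ^ 2 +
          a⁻¹ * (q ^ n) ^ 2 / (q ^ 2 * D))) -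
          q * ((a * D / (q ^ n) ^ 2 + a⁻¹ * (q ^ n) ^ 2 / D) * phi q d a b c n) =
          (q ^ 2 - (q ^ 2)⁻¹) * (c⁻¹ * (s n * k n)) + b / a * (q + q⁻¹) *
          (s n * k n * ((q ^ n) ^ 2 / (q ^ 2 * D)) - (q ^ n) ^ 2 / D * (s n * k n)) := by
        rw [hphi_eq]
        field_simp
        ring
      rcases Nat.lt_or_ge n d with h | h
      · have hk1 := hk0 (n + 1) (by omega) (by omega)
        have g3 : q⁻¹ * (b * (q ^ n) ^ 2 / D + b⁻¹ * D / (q ^ n) ^ 2) -
            q * (b * (q ^ (n + 1)) ^ 2 / D + b⁻¹ * D / (q ^ (n + 1)) ^ 2) =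
            (q ^ 2 - (q ^ 2)⁻¹) * (c * (k (n + 1))⁻¹) + b / a * (q + q⁻¹) *
            ((q ^ n) ^ 2 / D * (k (n + 1))⁻¹ - (k (n + 1))⁻¹ * ((q ^ (n + 1)) ^ 2 / D)) := by
          have h4 : k (n + 1) = a⁻¹ - c / b * (D / (q * (q ^ n) ^ 2)) := by
            simp only [hk]
            rw [hxs n]
            congr 2
            field_simp
          apply mul_right_cancel₀ hk1
          have h6 : ((q ^ 2 - (q ^ 2)⁻¹) * (c * (k (n + 1))⁻¹) + b / a * (q + q⁻¹) *
            ((q ^ n) ^ 2 / D * (k (n + 1))⁻¹ - (k (n + 1))⁻¹ * ((q ^ (n + 1)) ^ 2 / D))) *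
            k (n + 1) = ((q ^ 2 - (q ^ 2)⁻¹) * c + b / a * (q + q⁻¹) *
            ((q ^ n) ^ 2 / D - ((q ^ (n + 1)) ^ 2 / D))) * ((k (n + 1))⁻¹ * k (n + 1)) := by ring
          rw [h6, inv_mul_cancel₀ hk1, mul_one, h4, hxs n]
          field_simp
          ring
        linear_combination (norm := module) g1 • F (n + 1) + g2 • F n + g3 • F (n + 2)
      · have h3 : F (n + 2) = 0 := by rw [show n = d by omega, hFd]
        rw [h3]
        linear_combination (norm := module) g1 • F (n + 1) + g2 • F n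
    exact smul_right_injective _ hqq2 h0
  -- the module structure
  let g : Gen → Module.End K V := fun t => match t with
    | Gen.X => X
    | Gen.Xi => Xi
    | Gen.Y => Y
    | Gen.Z => Z
  let φ : FreeAlgebra K Gen →ₐ[K] Module.End K V := FreeAlgebra.lift K g
  have hφ : ∀ t, φ (FreeAlgebra.ι K t) = g t := fun t => FreeAlgebra.lift_ι_apply g t
  let ρ : Uq K q →ₐ[K] Module.End K V := RingQuot.liftAlgHom K ⟨φ, by
    intro u v huv
    cases huv with
    | mul_inv => rw [map_mul, map_one, hφ, hφ]; exact r1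
    | inv_mul => rw [map_mul, map_one, hφ, hφ]; exact r2
    | xy => rw [map_sub, map_smul, map_smul, map_smul, map_mul, map_mul, map_one, hφ, hφ]; exact r3
    | yz => rw [map_sub, map_smul, map_smul, map_smul, map_mul, map_mul, map_one, hφ, hφ]; exact r4
    | zx => rw [map_sub, map_smul, map_smul, map_smul, map_mul, map_mul, map_one, hφ, hφ]; exact r5⟩
  have hρ : ∀ t, ρ (gen K q t) = g t := by
    intro t
    rw [gen, RingQuot.liftAlgHom_mkAlgHom_apply, hφ]
  have hρX : ρ (gen K q Gen.X) = X := hρ _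
  have hρY : ρ (gen K q Gen.Y) = Y := hρ _
  have hρZ : ρ (gen K q Gen.Z) = Z := hρ _
  refine ⟨ρ, ⟨⟨0, e 0, (e.ne_zero 0).symm⟩, fun W hW => ?_⟩, ?_, ?_, ?_⟩
  · have hX' : ∀ w ∈ W, X w ∈ W := fun w hw => by rw [← hρX]; exact hW _ w hw
    have hY' : ∀ w ∈ W, Y w ∈ W := fun w hw => by rw [← hρY]; exact hW _ w hw
    have hZ' : ∀ w ∈ W, Z w ∈ W := fun w hw => by rw [← hρZ]; exact hW _ w hw
    refine leonard_irred hAB W (fun w hw => ?_) (fun w hw => ?_)
    · rw [eA]
      simp only [LinearMap.sub_apply, LinearMap.add_apply, LinearMap.smul_apply,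
        Module.End.mul_apply]
      exact W.add_mem (W.add_mem (W.smul_mem _ (hX' w hw)) (W.smul_mem _ (hY' w hw)))
        (W.smul_mem _ (W.sub_mem (hX' _ (hY' w hw)) (hY' _ (hX' w hw))))
    · rw [eB]
      simp only [LinearMap.sub_apply, LinearMap.add_apply, LinearMap.smul_apply,
        Module.End.mul_apply]
      exact W.add_mem (W.add_mem (W.smul_mem _ (hZ' w hw)) (W.smul_mem _ (hX' w hw)))
        (W.smul_mem _ (W.sub_mem (hZ' _ (hX' w hw)) (hX' _ (hZ' w hw))))
  · rw [hρX, hρY]; exact eA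
  · rw [hρX, hρZ]; exact eB
  · rw [hρY, hρZ]; exact eC

end Main

end Pool.Agent.Results.MP_dc3d2a_al.EquitableAction
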